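import Pool.Agent.W398.SG.StmC

/-!
SG-C-UNI0 for project SG (MP_9a3597_al): uniseriality of the constituent.
-/

namespace Pool.Agent.W577.SG.Uni0

open Pool.Agent.W37.SG Pool.Agent.W398.SG.C

/-- the induced submodule -/
def Ind {p : ℕ} [Fact p.Prime] {P T : Type} [Group P] [AddCommGroup T] [Module ℤ_[p] T]
    (ρ : Act p P T) (T₀ : Submodule ℤ_[p] T) (N : T →ₗ[ℤ_[p]] T)
    (M : Submodule ℤ_[p] T₀) : Submodule ℤ_[p] T where
  carrier := {t | ∀ g, ∃ m ∈ M, N (ρ g t) = (p : ℤ_[p]) • (m : T)}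
  add_mem' := by
    intro a b ha hb g
    obtain ⟨m, hm, h1⟩ := ha g
    obtain ⟨m', hm', h2⟩ := hb g
    refine ⟨m + m', add_mem hm hm', ?_⟩
    rw [map_add, map_add, h1, h2, Submodule.coe_add, smul_add]
  zero_mem' := by
    intro g
    refine ⟨0, zero_mem _, ?_⟩
    rw [map_zero, map_zero, Submodule.coe_zero, smul_zero]
  smul_mem' := by
    intro c a ha g
    obtain ⟨m, hm, h1⟩ := ha g
    refine ⟨c • m, Submodule.smul_mem _ _ hm, ?_⟩
    rw [map_smul, map_smul, h1, Submodule.coe_smul, smul_comm]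

theorem main : S_UNI0 := by
  intro p hp P T _ _ _ _ ρ hT hU H T₀ N hS h
  obtain ⟨hTf, hTt, hTn⟩ := hT
  obtain ⟨-, hHT, hN0, hNp, hNc, hNz, -, ⟨g0, hg0, x0, hx0, hne⟩⟩ := hS
  constructor
  · refine ⟨inferInstance, ?_, ?_⟩
    · intro x hx
      apply Subtype.ext
      exact hTt x (by rw [← Submodule.coe_smul, hx]; rfl)
    · refine ⟨⟨x0, hx0⟩, ?_⟩
      intro h0
      apply hne
      have h1 : x0 = 0 := congrArg Subtype.val h0
      rw [h1, map_zero]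
  · intro M M' hM hM' hMf hMf'
    have inv : ∀ K : Submodule ℤ_[p] T₀, ∀ g, ∀ x ∈ Ind ρ T₀ N K, ρ g x ∈ Ind ρ T₀ N K := by
      intro K g x hx g'
      obtain ⟨m, hm, h1⟩ := hx (g' * g)
      refine ⟨m, hm, ?_⟩
      rw [← h1, map_mul]
      rfl
    have fin : ∀ K : Submodule ℤ_[p] T₀, (∃ n : ℕ, ∀ x : T₀, (p : ℤ_[p]) ^ n • x ∈ K) →
        ∃ n : ℕ, ∀ x : T, (p : ℤ_[p]) ^ n • x ∈ Ind ρ T₀ N K := by
      rintro K ⟨n, hn⟩
      refine ⟨n + 1, ?_⟩
      intro x g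
      refine ⟨(p : ℤ_[p]) ^ n • ⟨N (ρ g x), hN0 _⟩, hn _, ?_⟩
      rw [map_smul, map_smul, Submodule.coe_smul, smul_smul, ← pow_succ']
    have le : ∀ K : Submodule ℤ_[p] T₀, (∀ g : H, ∀ x ∈ K, restr ρ H T₀ h g x ∈ K) →
        ∀ m ∈ K, (m : T) ∈ Ind ρ T₀ N K := by
      intro K hK m hm g
      by_cases hg : g ∈ H
      · refine ⟨restr ρ H T₀ h ⟨g, hg⟩ m, hK ⟨g, hg⟩ m hm, ?_⟩
        rw [hNc g hg, hNp m m.2, map_smul]
        rfl
      · refine ⟨0, zero_mem _, ?_⟩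
        rw [hNz g hg m m.2, Submodule.coe_zero, smul_zero]
    have fin2 : ∀ K K' : Submodule ℤ_[p] T₀,
        (∀ g : H, ∀ x ∈ K, restr ρ H T₀ h g x ∈ K) →
        Ind ρ T₀ N K ≤ Ind ρ T₀ N K' → K ≤ K' := by
      intro K K' hK hle m hm
      obtain ⟨m', hm', h1⟩ := hle (le K hK m hm) 1
      have h2 : (p : ℤ_[p]) • ((m : T) - (m' : T)) = 0 := by
        rw [smul_sub, ← h1, ← hNp m m.2, map_one]
        show N m - N m = 0
        rw [sub_self]
      have h3 := hTt _ h2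
      have h4 : m = m' := Subtype.ext (sub_eq_zero.mp h3)
      rw [h4]
      exact hm'
    rcases hU _ _ (inv M) (inv M') (fin M hMf) (fin M' hMf') with h1 | h1
    · exact Or.inl (fin2 M M' hM h1)
    · exact Or.inr (fin2 M' M hM' h1)

end Pool.Agent.W577.SG.Uni0

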