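import Pool.Agent.W37.SG.Stm2

/-!
SG-AC for project SG (MP_9a3597_al): the situation where all the `a j`, `j ≥ J`, equal `α`.
-/

namespace Pool.Agent.W577.SG

open Pool.Agent.W37.SG

theorem U_mono (p : ℕ) {k l : ℕ} (h : k ≤ l) : U p k ≤ U p l := by
  apply Submodule.span_mono
  rintro f ⟨i, hi, rfl⟩
  exact ⟨i, lt_of_lt_of_le hi h, rfl⟩

theorem U_zero (p : ℕ) : U p 0 = ⊥ := by
  unfold U
  rw [Submodule.span_eq_bot]
  rintro f ⟨i, hi, rfl⟩
  exact absurd hi (Nat.not_lt_zero i)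

theorem U_succ (p k : ℕ) (f : Fn p) (hf : f ∈ U p (k + 1)) :
    ∃ c : ZMod p, ∃ u ∈ U p k, f = c • mon p k + u := by
  have hset : {f | ∃ i < k + 1, f = mon p i} = insert (mon p k) {f | ∃ i < k, f = mon p i} := by
    ext f
    constructor
    · rintro ⟨i, hi, rfl⟩
      rcases Nat.lt_succ_iff_lt_or_eq.mp hi with h | h
      · exact Or.inr ⟨i, h, rfl⟩
      · left
        rw [h]
    · rintro (h | ⟨i, hi, rfl⟩)
      · exact ⟨k, Nat.lt_succ_self k, h⟩
      · exact ⟨i, Nat.lt_succ_of_lt hi, rfl⟩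
  unfold U at hf
  rw [hset, Submodule.mem_span_insert] at hf
  obtain ⟨c, u, hu, rfl⟩ := hf
  exact ⟨c, u, hu, rfl⟩

theorem const_mem (p : ℕ) (c : ZMod p) : (fun _ => c : Fn p) ∈ U p 1 := by
  have h1 : mon p 0 ∈ U p 1 := Submodule.subset_span ⟨0, Nat.zero_lt_one, rfl⟩
  have h2 : (fun _ => c : Fn p) = c • mon p 0 := by
    funext x
    simp [mon]
  rw [h2]
  exact Submodule.smul_mem _ _ h1

/-- The label at `j`. -/
def Lb (p j : ℕ) (g : Pm p) : Fn p := fun x => g x j - x j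

theorem Lb_mul (p j : ℕ) (g h : Pm p) (hg : IsTri p g) (hh : IsKer p j h) :
    Lb p j (g * h) = Lb p j g + Lb p j h := by
  funext x
  have h1 : g (h x) j - h x j = g x j - x j := hg j (h x) x (fun i hi => hh x i hi)
  show g (h x) j - x j = (g x j - x j) + (h x j - x j)
  rw [← h1]
  ring

theorem Lb_one (p j : ℕ) : Lb p j 1 = 0 := by
  funext x
  show x j - x j = 0
  ring

section main

variable (p : ℕ) [hp : Fact p.Prime] (s : ℕ) (Q : Subgroup (Pm p)) (X : Pm p)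
    (Γ : ℕ → Subgroup (Pm p)) (j0 : ℕ) (n a : ℕ → ℕ) (J α : ℕ)

include hp

theorem kmem (G : GamHyp p s Q Γ j0 n a) (j : ℕ) (hj : j0 ≤ j) (g : Pm p) :
    g ∈ Γ (n j) ↔ g ∈ Q ∧ IsKer p j g := by
  have h := G.blk j hj 0 (Nat.zero_le _) g
  rw [Nat.add_zero, Nat.sub_zero] at h
  rw [h]
  constructor
  · rintro ⟨h1, h2, -⟩
    exact ⟨h1, h2⟩
  · rintro ⟨h1, h2⟩
    refine ⟨h1, h2, ?_⟩
    rw [G.lab j]
    exact ⟨g, h1, h2, fun x => by ring⟩

theorem Lb_pow (G : GamHyp p s Q Γ j0 n a) (htri : ∀ g ∈ Q, IsTri p g) (j : ℕ) (hj : j0 ≤ j)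
    (y : Pm p) (hy : y ∈ Γ (n j)) (t : ℕ) : Lb p j (y ^ t) = (t : ZMod p) • Lb p j y := by
  induction t with
  | zero =>
    rw [pow_zero, Lb_one, Nat.cast_zero, zero_smul]
  | succ t ih =>
    have h1 := (kmem p s Q Γ j0 n a G j hj (y ^ t)).mp (pow_mem hy t)
    have h2 := (kmem p s Q Γ j0 n a G j hj y).mp hy
    rw [pow_succ, Lb_mul p j _ _ (htri _ h1.1) h2.2, ih, Nat.cast_succ, add_smul, one_smul]

theorem Lb_inv (G : GamHyp p s Q Γ j0 n a) (htri : ∀ g ∈ Q, IsTri p g) (j : ℕ) (hj : j0 ≤ j)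
    (y : Pm p) (hy : y ∈ Γ (n j)) : Lb p j (y⁻¹) = - Lb p j y := by
  have h2 := (kmem p s Q Γ j0 n a G j hj y).mp hy
  have h3 := (kmem p s Q Γ j0 n a G j hj y⁻¹).mp (inv_mem hy)
  have h4 := Lb_mul p j y⁻¹ y (htri _ h3.1) h2.2
  rw [inv_mul_cancel, Lb_one] at h4
  exact eq_neg_of_add_eq_zero_left h4.symm

theorem blk' (G : GamHyp p s Q Γ j0 n a) (j : ℕ) (hj : j0 ≤ j) (r : ℕ) (hr : r ≤ a j) (g : Pm p) :
    g ∈ Γ (n j + r) ↔ g ∈ Γ (n j) ∧ Lb p j g ∈ U p (a j - r) := by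
  rw [G.blk j hj r hr g, kmem p s Q Γ j0 n a G j hj g, and_assoc]
  rfl

/-- one-dimensionality -/
theorem step (G : GamHyp p s Q Γ j0 n a) (htri : ∀ g ∈ Q, IsTri p g) (j : ℕ) (hj : j0 ≤ j)
    (r : ℕ) (hr : r < a j) (y g : Pm p) (hy : y ∈ Γ (n j + r)) (hy' : y ∉ Γ (n j + (r + 1)))
    (hg : g ∈ Γ (n j + r)) : ∃ t : ℕ, (y ^ t)⁻¹ * g ∈ Γ (n j + (r + 1)) := by
  have hp0 : p.Prime := hp.out
  rw [blk' p s Q Γ j0 n a G j hj r hr.le] at hy hg
  rw [blk' p s Q Γ j0 n a G j hj (r + 1) hr] at hy'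
  have hk : a j - r = (a j - (r + 1)) + 1 := by omega
  rw [hk] at hy hg
  obtain ⟨hy1, hy2⟩ := hy
  obtain ⟨hg1, hg2⟩ := hg
  obtain ⟨c, u, hu, hcu⟩ := U_succ p _ _ hy2
  obtain ⟨d, v, hv, hdv⟩ := U_succ p _ _ hg2
  have hc : c ≠ 0 := by
    intro hc
    apply hy'
    refine ⟨hy1, ?_⟩
    rw [hcu, hc, zero_smul, zero_add]
    exact hu
  have : NeZero p := ⟨hp0.ne_zero⟩
  refine ⟨(d / c).val, ?_⟩
  have hyt : y ^ (d / c).val ∈ Γ (n j) := pow_mem hy1 _
  rw [blk' p s Q Γ j0 n a G j hj (r + 1) hr]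
  refine ⟨mul_mem (inv_mem hyt) hg1, ?_⟩
  have h1 := (kmem p s Q Γ j0 n a G j hj _).mp (inv_mem hyt)
  have h2 := (kmem p s Q Γ j0 n a G j hj g).mp hg1
  rw [Lb_mul p j _ _ (htri _ h1.1) h2.2, Lb_inv p s Q Γ j0 n a G htri j hj _ hyt,
    Lb_pow p s Q Γ j0 n a G htri j hj y hy1, ZMod.natCast_zmod_val, hcu, hdv, smul_add, smul_smul,
    div_mul_cancel₀ d hc]
  have h3 : -(d • mon p (a j - (r + 1)) + (d / c) • u) + (d • mon p (a j - (r + 1)) + v) =
      v - (d / c) • u := by abel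
  rw [h3]
  exact Submodule.sub_mem _ hv (Submodule.smul_mem _ _ hu)

theorem nform (G : GamHyp p s Q Γ j0 n a) (hJ : j0 ≤ J) (ha : ∀ j, J ≤ j → a j = α) (d : ℕ) :
    n (J + d) = n J + α * d := by
  induction d with
  | zero => simp
  | succ d ih =>
    have h1 := G.nstep (J + d) (by omega)
    rw [ha (J + d) (by omega)] at h1
    rw [show J + (d + 1) = J + d + 1 from rfl, h1, ih]
    ring

theorem nmono (G : GamHyp p s Q Γ j0 n a) (j : ℕ) (hj : j0 ≤ j) : n j0 ≤ n j := by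
  induction j, hj using Nat.le_induction with
  | base => exact le_rfl
  | succ j hj ih =>
    rw [G.nstep j hj]
    exact ih.trans (Nat.le_add_right _ _)

theorem Ymem (G : GamHyp p s Q Γ j0 n a)
    (hXQ : X ∈ Q) (hXP : ∀ m : ℕ, IsKer p (s + m) (X ^ p ^ m) ∧
      ∃ c : ZMod p, c ≠ 0 ∧ ∀ x, (X ^ p ^ m) x (s + m) = x (s + m) + c)
    (hsJ : s ≤ J) (hJ : j0 ≤ J) (hα : 1 ≤ α) (ha : ∀ j, J ≤ j → a j = α) (j : ℕ) (hj : J ≤ j) :
    X ^ p ^ (j - s) ∈ Γ (n j + (α - 1)) ∧ X ^ p ^ (j - s) ∉ Γ (n j + (α - 1) + 1) := by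
  obtain ⟨h1, c, hc, h2⟩ := hXP (j - s)
  rw [show s + (j - s) = j by omega] at h1 h2
  have hj0 : j0 ≤ j := hJ.trans hj
  have hQ : X ^ p ^ (j - s) ∈ Γ (n j) :=
    (kmem p s Q Γ j0 n a G j hj0 _).mpr ⟨pow_mem hXQ _, h1⟩
  have hL : Lb p j (X ^ p ^ (j - s)) = fun _ => c := by
    funext x
    show (X ^ p ^ (j - s)) x j - x j = c
    rw [h2 x]
    ring
  have haj := ha j hj
  constructor
  · rw [blk' p s Q Γ j0 n a G j hj0 (α - 1) (by omega)]
    refine ⟨hQ, ?_⟩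
    rw [hL, haj, show α - (α - 1) = 1 by omega]
    exact const_mem p c
  · rw [show n j + (α - 1) + 1 = n j + α by omega,
      blk' p s Q Γ j0 n a G j hj0 α (by omega)]
    rintro ⟨-, h⟩
    rw [hL, haj, Nat.sub_self, U_zero, Submodule.mem_bot] at h
    exact hc (congrFun h 0)

end main

theorem ac : S_AC := by
  intro hD1 hD2 hD3 hD4 hDC hXP p hp s Q X Γ j0 n a J α htri hX G hsJ hJ hα ha
  have hXP' : ∀ m : ℕ, IsKer p (s + m) (X ^ p ^ m) ∧
      ∃ c : ZMod p, c ≠ 0 ∧ ∀ x, (X ^ p ^ m) x (s + m) = x (s + m) + c := by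
    intro m
    exact (hXP hD1 hD3 hD4 hDC p s Q X htri hX m).2.2
  have hY := Ymem p s Q X Γ j0 n a J α G hX.mem hXP' hsJ hJ hα ha
  have hnf := nform p s Q Γ j0 n a J α G hJ ha
  have hn1 : ∀ j, J ≤ j → n j0 ≤ n j := fun j hj => nmono p s Q Γ j0 n a G j (hJ.trans hj)
  have hn0 := G.npos
  refine ⟨hsJ, hα, ?_, ?_, ?_, ?_⟩
  · intro j hj f
    have := G.lab j f
    rw [ha j hj] at this
    exact this
  · intro i j hi hj g hg h hh hgi hhj
    have h1 := (kmem p s Q Γ j0 n a G i (hJ.trans hi) g).mpr ⟨hg, hgi⟩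
    have h2 := (kmem p s Q Γ j0 n a G j (hJ.trans hj) h).mpr ⟨hh, hhj⟩
    have h3 := G.comm (n i) (n j) (by have := hn1 i hi; omega) (by have := hn1 j hj; omega)
      g h1 h h2
    obtain ⟨i', rfl⟩ := Nat.exists_eq_add_of_le hi
    obtain ⟨j', rfl⟩ := Nat.exists_eq_add_of_le hj
    have h4 : n (J + i' + (J + j') - J) ≤ n (J + i') + n (J + j') := by
      rw [show J + i' + (J + j') - J = J + (i' + j') by omega, hnf, hnf, hnf, mul_add]
      omega
    exact ((kmem p s Q Γ j0 n a G _ (by omega) _).mp (G.anti h4 h3)).2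
  · intro j hj
    obtain ⟨h1, h2⟩ := hY j hj
    have hnj := hn1 j hj
    obtain ⟨h, hh, h3⟩ := G.next _ (by omega) _ h1 h2
    refine ⟨h, hh, ?_⟩
    intro h4
    apply h3
    have hstep : n (j + 1) = n j + α := by
      rw [G.nstep j (hJ.trans hj), ha j hj]
    have h5 := G.comm (n j + (α - 1)) 1 (by omega) le_rfl _ h1 h (by rw [G.one]; exact hh)
    have h6 : n j + (α - 1) + 1 = n (j + 1) := by omega
    rw [h6] at h5
    rw [show n j + (α - 1) + 2 = n (j + 1) + 1 by omega,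
      blk' p s Q Γ j0 n a G (j + 1) (by omega) 1 (by rw [ha (j + 1) (by omega)]; exact hα)]
    refine ⟨h5, ?_⟩
    rw [ha (j + 1) (by omega)]
    exact h4
  · intro i hi N hNQ hNc hXN k g hg hgi
    obtain ⟨hy0, hy0'⟩ := hY i hi
    have hni := hn1 i hi
    -- elements of `N` in every layer
    have key : ∀ d : ℕ, ∃ y ∈ N, y ∈ Γ (n i + (α - 1) + d) ∧ y ∉ Γ (n i + (α - 1) + d + 1) := by
      intro d
      induction d with
      | zero => exact ⟨_, hXN, hy0, hy0'⟩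
      | succ d ih =>
        obtain ⟨y, hyN, hy1, hy2⟩ := ih
        obtain ⟨h, hh, h3⟩ := G.next _ (by omega) _ hy1 hy2
        refine ⟨cm y h, ?_, ?_, ?_⟩
        · have : cm y h = y⁻¹ * (h⁻¹ * y * h) := by
            unfold cm
            group
          rw [this]
          exact mul_mem (inv_mem hyN) (hNc y hyN h hh)
        · exact G.comm _ 1 (by omega) le_rfl _ hy1 h (by rw [G.one]; exact hh)
        · exact h3
    -- the covering
    have cover : ∀ d : ℕ, ∃ h ∈ N, h⁻¹ * g ∈ Γ (n i + (α - 1) + 1 + d) := by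
      intro d
      induction d with
      | zero =>
        refine ⟨1, one_mem _, ?_⟩
        rw [inv_one, one_mul, Nat.add_zero,
          show n i + (α - 1) + 1 = n (i + 1) by rw [G.nstep i (hJ.trans hi), ha i hi]; omega,
          kmem p s Q Γ j0 n a G (i + 1) (by omega)]
        exact ⟨hg, hgi⟩
      | succ d ih =>
        obtain ⟨h, hh, h1⟩ := ih
        obtain ⟨y, hyN, hy1, hy2⟩ := key (1 + d)
        rw [← Nat.add_assoc] at hy1 hy2
        -- write the index as `n j + r`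
        obtain ⟨i', rfl⟩ := Nat.exists_eq_add_of_le hi
        have h6 := hnf i'
        obtain ⟨M, hM⟩ : ∃ M : ℕ, M = n (J + i') + (α - 1) + 1 + d := ⟨_, rfl⟩
        obtain ⟨q, r, hr, hm⟩ : ∃ q r : ℕ, r < α ∧ M = n (J + q) + r := by
          refine ⟨(M - n J) / α, (M - n J) % α, Nat.mod_lt _ hα, ?_⟩
          have h5 := Nat.div_add_mod (M - n J) α
          rw [hnf, add_assoc, h5]
          omega
        rw [hM] at hm
        have haq : a (J + q) = α := ha _ (by omega)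
        rw [hm] at h1 hy1 hy2
        obtain ⟨t, ht⟩ := step p s Q Γ j0 n a G htri (J + q) (by omega) r (by omega) y _ hy1
          (by rw [← Nat.add_assoc]; exact hy2) h1
        refine ⟨h * y ^ t, mul_mem hh (pow_mem hyN t), ?_⟩
        rw [show n (J + i') + (α - 1) + 1 + (d + 1) = n (J + i') + (α - 1) + 1 + d + 1 from rfl,
          hm, mul_inv_rev, mul_assoc, Nat.add_assoc]
        exact ht
    obtain ⟨h, hh, h1⟩ := cover (n (J + k))
    refine ⟨h, hh, ?_⟩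
    have h2 := (kmem p s Q Γ j0 n a G (J + k) (by omega) _).mp (G.anti (by omega) h1)
    intro x l hl
    exact h2.2 x l (by omega)

theorem main : S_AC := ac

end Pool.Agent.W577.SG

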